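import Pool.Agent.helper95.DP.SpecH

/-!
# Project dp: dynamical percolation exists (module HNV)
-/

namespace DP

open MeasureTheory ProbabilityTheory

theorem HNV_mp_site (e : DynPerc.Edge) :
    MeasurePreserving (fun X : DynPerc.Edge → Path => X e)
      (Measure.infinitePi fun _ : DynPerc.Edge => nu) nu :=
  measurePreserving_eval_infinitePi (fun _ : DynPerc.Edge => nu) e

theorem HNV_mp_T (e : DynPerc.Edge) :
    MeasurePreserving (fun X : DynPerc.Edge → Path => (X e).1)
      (Measure.infinitePi fun _ : DynPerc.Edge => nu) nuT :=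
  (measurePreserving_fst (μ := nuT) (ν := nuU)).comp (HNV_mp_site e)

theorem HNV_mp_U (e : DynPerc.Edge) :
    MeasurePreserving (fun X : DynPerc.Edge → Path => (X e).2)
      (Measure.infinitePi fun _ : DynPerc.Edge => nu) nuU :=
  (measurePreserving_snd (μ := nuT) (ν := nuU)).comp (HNV_mp_site e)

theorem HNV_mp_Tk (e : DynPerc.Edge) (k : ℕ) :
    MeasurePreserving (fun X : DynPerc.Edge → Path => (X e).1 k)
      (Measure.infinitePi fun _ : DynPerc.Edge => nu) (expMeasure 1) :=
  (measurePreserving_eval_infinitePi (fun _ : ℕ => expMeasure 1) k).comp (HNV_mp_T e)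

theorem HNV_mp_Uk (e : DynPerc.Edge) (k : ℕ) :
    MeasurePreserving (fun X : DynPerc.Edge → Path => (X e).2 k)
      (Measure.infinitePi fun _ : DynPerc.Edge => nu) (PMF.uniformOfFintype Bool).toMeasure :=
  (measurePreserving_eval_infinitePi (fun _ : ℕ => (PMF.uniformOfFintype Bool).toMeasure) k).comp
    (HNV_mp_U e)

theorem HNV : HNV_stmt := by
  refine ⟨DynPerc.Edge → Path, inferInstance, Measure.infinitePi fun _ : DynPerc.Edge => nu,
    inferInstance, fun e k X => (X e).1 k, fun e k X => (X e).2 k, ?_⟩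
  refine ⟨fun e k => (HNV_mp_Tk e k).measurable, fun e k => (HNV_mp_Uk e k).measurable,
    fun e k => (HNV_mp_Tk e k).map_eq, fun e k => (HNV_mp_Uk e k).map_eq, ?_, ?_, ?_, ?_⟩
  · intro e
    rw [iIndepFun_iff_map_fun_eq_infinitePi_map (fun k => (HNV_mp_Tk e k).measurable)]
    have h1 : (Measure.infinitePi fun _ : DynPerc.Edge => nu).map
        (fun X k => (X e).1 k) = nuT := (HNV_mp_T e).map_eq
    rw [h1]
    unfold nuT
    congr 1
    funext k
    exact (HNV_mp_Tk e k).map_eq.symm
  · intro e
    rw [iIndepFun_iff_map_fun_eq_infinitePi_map (fun k => (HNV_mp_Uk e k).measurable)]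
    have h1 : (Measure.infinitePi fun _ : DynPerc.Edge => nu).map
        (fun X k => (X e).2 k) = nuU := (HNV_mp_U e).map_eq
    rw [h1]
    unfold nuU
    congr 1
    funext k
    exact (HNV_mp_Uk e k).map_eq.symm
  · intro e
    rw [indepFun_iff_map_prod_eq_prod_map_map (HNV_mp_T e).measurable.aemeasurable
      (HNV_mp_U e).measurable.aemeasurable]
    have h1 : (Measure.infinitePi fun _ : DynPerc.Edge => nu).map
        (fun X => ((fun k => (X e).1 k), (fun k => (X e).2 k))) = nu := (HNV_mp_site e).map_eq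
    rw [h1, (HNV_mp_T e).map_eq, (HNV_mp_U e).map_eq]
    rfl
  · exact iIndepFun_infinitePi (P := fun _ : DynPerc.Edge => nu) (X := fun _ x => x)
      (fun _ => measurable_id)

end DP
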