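import Pool.Agent.helper92.DP.GCE

/-!
# Project dp: growth of the four-arm probability (module F3)
-/

namespace DP

open MeasureTheory

theorem F3_loc_fq (N : ℕ) : Loc (fq N) (DqF N : Set V) := by
  have hsub : rect (-(4 * N : ℤ)) (4 * N) (-(4 * N : ℤ)) (4 * N) ⊆ (DqF N : Set V) := by
    intro v hv
    obtain ⟨h1, h2, h3, h4⟩ := hv
    simp only [DqF, Finset.coe_product, Set.mem_prod, Finset.coe_Icc, Set.mem_Icc]
    exact ⟨⟨h1, h2⟩, ⟨h3, h4⟩⟩
  refine ⟨DqF N, le_rfl, ?_⟩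
  have key : ∀ b b' : V → Bool, (∀ v ∈ (DqF N : Set V), b v = b' v) → b ∈ fq N → b' ∈ fq N := by
    rintro b b' hbb ⟨u, v, hu, hv, h⟩
    refine ⟨u, v, hu, hv, ?_⟩
    exact (Conn.congr (fun w hw => col_congr (hbb w (hsub hw)))).1 h
  intro b b' hbb
  exact ⟨key b b' hbb, key b' b fun v hv => (hbb v hv).symm⟩

theorem F3_Pr_mono {F G : Set (V → Bool)} (h : F ⊆ G) : Pr F ≤ Pr G := measureReal_mono h

theorem F3_Pr_nonneg (F : Set (V → Bool)) : 0 ≤ Pr F := measureReal_nonneg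

theorem F3 (hO : Bosss_stmt) (hV : GV3_stmt) (hC : C2_stmt) (hBP : GBP_stmt) (hR : F3R_stmt)
    (hD : F3D_stmt) (hF3V : F3V_stmt) (hPV : GPV_stmt) (hT : GTR_stmt) (hM : GFM_stmt) :
    F3_stmt := by
  classical
  obtain ⟨J, hJ, c₁, hc₁, t₀, hV⟩ := hV
  obtain ⟨C, hC0, a, ha, hC⟩ := hC
  obtain ⟨M, hMdef⟩ : ∃ M : ℕ, M = 4 * 2 ^ J - 1 := ⟨_, rfl⟩
  have h2J : 1 ≤ 2 ^ J := Nat.one_le_two_pow
  have hM1 : 1 ≤ M := by omega
  have hM4 : M + 1 = 4 * 2 ^ J := by omega
  have hMpos : (0 : ℝ) < (M : ℝ) := by exact_mod_cast hM1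
  refine ⟨c₁ / (16 * (M : ℝ) ^ 2 * C), by positivity, a, ha, max t₀ 2, ?_⟩
  intro i j hi hij
  have hi0 : t₀ ≤ i := le_trans (le_max_left _ _) hi
  have hi2 : 2 ≤ i := le_trans (le_max_right _ _) hi
  obtain ⟨m, hm⟩ : ∃ m : ℕ, m = 2 ^ (i - 1) := ⟨_, rfl⟩
  obtain ⟨t, ht⟩ : ∃ t : ℕ, t = 2 ^ (j + 1) := ⟨_, rfl⟩
  obtain ⟨N, hN⟩ : ∃ N : ℕ, N = 2 ^ J * t := ⟨_, rfl⟩
  obtain ⟨K, hK⟩ : ∃ K : ℕ, K = M * 2 ^ (j + 2 - i) := ⟨_, rfl⟩
  have hm1 : 1 ≤ m := by rw [hm]; exact Nat.one_le_two_pow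
  have hm2 : 2 * m = 2 ^ i := by
    rw [hm, ← pow_succ']
    congr 1; omega
  have ht2 : t = 2 * 2 ^ j := by rw [ht, pow_succ']
  have h2i2j : 2 * 2 ^ i ≤ 2 ^ j := by
    rw [← pow_succ']
    exact Nat.pow_le_pow_right (by norm_num) hij
  have hmt : K * m = M * t := by
    rw [hK, hm, ht, mul_assoc, ← pow_add]
    congr 2; omega
  have hKm : K * m + t = 4 * N := by
    rw [hmt, hN]
    have : M * t + t = (M + 1) * t := by ring
    rw [this, hM4]; ring
  have hK1 : 1 ≤ K := by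
    rw [hK]
    exact Nat.mul_pos hM1 (Nat.pos_of_ne_zero (by positivity))
  have htpos : 0 < t := by rw [ht]; positivity
  have hmeven : Even m := by
    rw [hm]
    exact (Nat.even_pow.2 ⟨even_two, by omega⟩)
  have ht8 : 8 ∣ t := by
    rw [ht]
    exact pow_dvd_pow 2 (show 3 ≤ j + 1 by omega)
  have ht0 : t₀ ≤ t := by
    have : j + 1 < 2 ^ (j + 1) := Nat.lt_two_pow_self
    rw [← ht] at this
    omega
  have hKm4 : K * m < 4 * N := by omega
  -- data
  obtain ⟨hb1, hb2, hb3, hb4, hb5⟩ := hBP N m K hm1 hK1 hKm4.le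
  obtain ⟨hr1, hr2⟩ := hR N m K hm1 hK1 hKm4
  have hd := hD N m K hm1 hK1 hKm4
  set L : Finset V := blkL m K with hL
  have hLoc := F3_loc_fq N
  have hLmem : ∀ v : V, v ∈ L ↔ (-(K * m : ℤ) ≤ v.1 ∧ v.1 ≤ K * m - 1) ∧
      (-(K * m : ℤ) ≤ v.2 ∧ v.2 ≤ K * m - 1) := by
    intro v
    simp [hL, blkL, Finset.mem_product, Finset.mem_Icc]
  have hKmz : (K * m : ℤ) + t = 4 * N := by exact_mod_cast hKm
  have hLsub : ∀ v ∈ L, v ∈ DqF N := by
    intro v hv
    obtain ⟨⟨h1, h2⟩, ⟨h3, h4⟩⟩ := (hLmem v).1 hv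
    have htz : (0 : ℤ) < t := by exact_mod_cast htpos
    simp only [DqF, Finset.mem_product, Finset.mem_Icc]
    refine ⟨⟨?_, ?_⟩, ⟨?_, ?_⟩⟩ <;> linarith
  -- variance bound
  have hvar : c₁ ≤ (∫ b, cpr L (fq N) b ^ 2 ∂P1) - Pr (fq N) ^ 2 := by
    rw [hN]
    refine hV t L ht0 ht8 ?_ ?_
    · intro v hv
      have hv' : sd 0 v ≤ 4 * (2 ^ J * t) - 2 * t := hv
      rw [← hN] at hv'
      have htz : (0 : ℤ) < t := by exact_mod_cast htpos
      have hNt : t ≤ N := by
        rw [hN]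
        exact Nat.le_mul_of_pos_left t h2J
      have h1 : (0 - v.1).natAbs ≤ 4 * N - 2 * t := le_trans (le_max_left _ _) hv'
      have h2 : (0 - v.2).natAbs ≤ 4 * N - 2 * t := le_trans (le_max_right _ _) hv'
      rw [Finset.mem_coe, hLmem]
      refine ⟨⟨?_, ?_⟩, ⟨?_, ?_⟩⟩ <;> omega
    · intro v hv
      obtain ⟨⟨h1, h2⟩, ⟨h3, h4⟩⟩ := (hLmem v).1 hv
      show sd 0 v ≤ 4 * (2 ^ J * t) - t
      rw [← hN]
      refine max_le ?_ ?_
      · show (0 - v.1).natAbs ≤ 4 * N - t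
        omega
      · show (0 - v.2).natAbs ≤ 4 * N - t
        omega
  -- OSSS
  have hos := hO (DqF N) (fnext N m K) (K ^ 2 + 1) (fun i => blk N m K i.1) (fq N) (cpr L (fq N))
    (fun i => if Disjoint (blk N m K i.1) L then 0 else Pr (Piv (blk N m K i.1 : Set V) (fq N)))
    hr1 (fun i j hij => hb2 i.1 (by omega) j.1 (by omega) (fun h => hij (Fin.ext h)))
    (fun i => (hb1 i.1 (by omega)).2) (fun i => (hb1 i.1 (by omega)).1)
    (fun X b => by
      rcases hr2 X b with h | ⟨k, hk, h⟩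
      · exact Or.inl h
      · exact Or.inr ⟨⟨k, by omega⟩, h⟩)
    hLoc
    (fun b b' h => (GCA L (fq N) _ hLoc).2.2 b b' fun v hv => h v (hLsub v hv))
    (GCA L (fq N) _ hLoc).1 hd
    (fun i => GCD L (blk N m K i.1) (fq N) _ hLoc)
  rw [GCB L (fq N) _ hLoc, (GCA L (fq N) _ hLoc).2.1] at hos
  -- the terms
  set P : ℝ := Pr (Ev fun c => four c 0 (2 ^ i) (2 ^ j)) with hP
  have hPnn : 0 ≤ P := F3_Pr_nonneg _
  set q : ℝ := (2 : ℝ) ^ i / 2 ^ j with hq
  have hqpos : 0 < q := by positivity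
  have hterm0 : (if Disjoint (blk N m K 0) L then 0 else Pr (Piv (blk N m K 0 : Set V) (fq N))) = 0 := by
    rw [if_pos hb5]
  have hterm : ∀ k : ℕ, 1 ≤ k → k ≤ K ^ 2 →
      Pr {b | blk N m K k ⊆ run (fnext N m K) b (DqF N).card} *
        (if Disjoint (blk N m K k) L then 0 else Pr (Piv (blk N m K k : Set V) (fq N))) ≤
      C * q ^ a * P := by
    intro k hk1 hk2
    have h1 : Pr {b | blk N m K k ⊆ run (fnext N m K) b (DqF N).card} ≤ C * q ^ a := by
      have h2 : Pr {b | blk N m K k ⊆ run (fnext N m K) b (DqF N).card} ≤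
          Pr (Ev fun c => reach c true (bce m K k) (m + 1) t) := by
        refine F3_Pr_mono ?_
        intro b hb
        exact hF3V N m K k t hm1 hK1 (by omega) htpos hk1 hk2 b hb
      refine h2.trans ((hC true (bce m K k) (m + 1) t (by omega) (by omega)).trans ?_)
      refine mul_le_mul_of_nonneg_left ?_ hC0.le
      refine Real.rpow_le_rpow (by positivity) ?_ ha.le
      have e1 : ((m + 1 : ℕ) : ℝ) ≤ (2 : ℝ) ^ i := by
        have : m + 1 ≤ 2 ^ i := by omega
        exact_mod_cast this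
      have e2 : (2 : ℝ) ^ j ≤ (t : ℝ) := by
        have : 2 ^ j ≤ t := by omega
        exact_mod_cast this
      rw [hq]
      exact div_le_div₀ (by positivity) e1 (by positivity) e2
    have h3 : (if Disjoint (blk N m K k) L then 0 else Pr (Piv (blk N m K k : Set V) (fq N))) ≤ P := by
      split_ifs with hdis
      · exact hPnn
      · obtain ⟨hbL, hbx⟩ := hb4 k hk1 hk2
        have hbce : Even (bce m K k).1 ∧ Even (bce m K k).2 := by
          have hmz : Even (m : ℤ) := by exact_mod_cast hmeven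
          unfold bce
          constructor
          · refine (Even.add (Even.add ?_ ?_) hmz)
            · exact (hmz.mul_left _).neg
            · exact (hmz.mul_left 2).mul_right _
          · refine (Even.add (Even.add ?_ ?_) hmz)
            · exact (hmz.mul_left _).neg
            · exact (hmz.mul_left 2).mul_right _
        -- the centre is in the bulk
        have hcen : |(bce m K k).1| ≤ K * m ∧ |(bce m K k).2| ≤ K * m := by
          have hKpos : 0 < K := hK1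
          have e1 : (k - 1) % K < K := Nat.mod_lt _ hKpos
          have e2 : (k - 1) / K < K := by
            rw [Nat.div_lt_iff_lt_mul hKpos]
            have : K ^ 2 = K * K := sq K
            omega
          have gen : ∀ r : ℕ, r < K → |-(K * m : ℤ) + 2 * m * (r : ℕ) + m| ≤ K * m := by
            intro r hr
            have hmz : (1 : ℤ) ≤ m := by exact_mod_cast hm1
            have hrz : (r : ℤ) + 1 ≤ K := by exact_mod_cast hr
            have hr0 : (0 : ℤ) ≤ r := by positivity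
            have h5 : (m : ℤ) * (r + 1) ≤ m * K := mul_le_mul_of_nonneg_left hrz (by linarith)
            have h6 : (0 : ℤ) ≤ m * r := by positivity
            rw [abs_le]
            constructor <;> nlinarith
          exact ⟨gen _ e1, gen _ e2⟩
        have h4 : Pr (Piv (blk N m K k : Set V) (fq N)) ≤
            Pr (Ev fun c => four c (bce m K k) (2 ^ i) (2 ^ j)) := by
          refine F3_Pr_mono ?_
          intro b hb
          have h5 := hPV b (blk N m K k : Set V) (bce m K k) m (2 ^ j) (-(4 * N : ℤ)) (4 * N)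
            (-(4 * N : ℤ)) (4 * N) hbx (by omega) ?_ hb
          · exact (hM (col b) (bce m K k) (m + 1) (2 ^ i) (2 ^ j) (2 ^ j) (by omega) (by omega)
              le_rfl).2.1 h5
          · intro v hv
            have h6 : ((bce m K k).1 - v.1).natAbs ≤ 2 ^ j := le_trans (le_max_left _ _) hv
            have h7 : ((bce m K k).2 - v.2).natAbs ≤ 2 ^ j := le_trans (le_max_right _ _) hv
            obtain ⟨h8, h9⟩ := hcen
            rw [abs_le] at h8 h9
            have e6 : |(bce m K k).1 - v.1| ≤ 2 ^ j := by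
              rw [Int.abs_eq_natAbs]; exact_mod_cast h6
            have e7 : |(bce m K k).2 - v.2| ≤ 2 ^ j := by
              rw [Int.abs_eq_natAbs]; exact_mod_cast h7
            rw [abs_le] at e6 e7
            have htz : (t : ℤ) = 2 * 2 ^ j := by exact_mod_cast ht2
            have h2jz : (0 : ℤ) < 2 ^ j := by positivity
            refine ⟨?_, ?_, ?_, ?_⟩ <;> linarith
        rw [(hT (bce m K k) (2 ^ i) (2 ^ j) hbce.1 hbce.2).1] at h4
        exact h4
    have h0 : 0 ≤ (if Disjoint (blk N m K k) L then 0 else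
        Pr (Piv (blk N m K k : Set V) (fq N))) := by
      split_ifs
      · exact le_rfl
      · exact F3_Pr_nonneg _
    exact mul_le_mul h1 h3 h0 (by positivity)
  -- the sum
  have hsum : ∑ i : Fin (K ^ 2 + 1), Pr {b | blk N m K i.1 ⊆ run (fnext N m K) b (DqF N).card} *
      (if Disjoint (blk N m K i.1) L then 0 else Pr (Piv (blk N m K i.1 : Set V) (fq N))) ≤
      (K : ℝ) ^ 2 * (C * q ^ a * P) := by
    rw [Fin.sum_univ_succ]
    have e0 : ((0 : Fin (K ^ 2 + 1)) : ℕ) = 0 := rfl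
    rw [e0, hterm0, mul_zero, zero_add]
    calc _ ≤ ∑ _i : Fin (K ^ 2), C * q ^ a * P := by
          refine Finset.sum_le_sum fun i _ => ?_
          exact hterm (i.succ : Fin (K ^ 2 + 1)).1 (by simp) (by
            have := (i.succ : Fin (K ^ 2 + 1)).2
            omega)
      _ = (K : ℝ) ^ 2 * (C * q ^ a * P) := by
          rw [Finset.sum_const, Finset.card_univ, Fintype.card_fin, nsmul_eq_mul]
          push_cast
          ring
  have hfin : c₁ ≤ (K : ℝ) ^ 2 * (C * q ^ a * P) := by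
    refine hvar.trans (le_trans (le_of_eq ?_) (hos.trans hsum))
    ring
  -- arithmetic
  have hKq : (K : ℝ) * q = 4 * M := by
    have e1 : K * 2 ^ i = 4 * M * 2 ^ j := by
      rw [hK, mul_assoc, ← pow_add, show j + 2 - i + i = j + 2 by omega, pow_add]
      ring
    have e2 : (K : ℝ) * 2 ^ i = 4 * M * 2 ^ j := by exact_mod_cast e1
    rw [hq]
    field_simp
    linarith
  have hrp : q ^ (2 - a) * q ^ a = q ^ 2 := by
    rw [← Real.rpow_add hqpos, sub_add_cancel]
    norm_num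
  have hqa : 0 < q ^ a := Real.rpow_pos_of_pos hqpos _
  have h16 : (K : ℝ) ^ 2 * q ^ 2 = 16 * (M : ℝ) ^ 2 := by
    rw [← mul_pow, hKq]; ring
  rw [div_mul_eq_mul_div, div_le_iff₀ (by positivity)]
  -- c₁ q^(2-a) ≤ P * (16 M² C)
  have h17 : c₁ * q ^ 2 ≤ 16 * (M : ℝ) ^ 2 * (C * q ^ a * P) := by
    calc c₁ * q ^ 2 ≤ ((K : ℝ) ^ 2 * (C * q ^ a * P)) * q ^ 2 :=
          mul_le_mul_of_nonneg_right hfin (sq_nonneg q)
      _ = ((K : ℝ) ^ 2 * q ^ 2) * (C * q ^ a * P) := by ring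
      _ = 16 * (M : ℝ) ^ 2 * (C * q ^ a * P) := by rw [h16]
  have h18 : (c₁ * q ^ (2 - a)) * q ^ a ≤ (P * (16 * (M : ℝ) ^ 2 * C)) * q ^ a := by
    calc (c₁ * q ^ (2 - a)) * q ^ a = c₁ * q ^ 2 := by rw [mul_assoc, hrp]
      _ ≤ 16 * (M : ℝ) ^ 2 * (C * q ^ a * P) := h17
      _ = (P * (16 * (M : ℝ) ^ 2 * C)) * q ^ a := by ring
  exact le_of_mul_le_mul_right h18 hqa

end DP
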