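import Pool.Agent.helper3.DP.SpecG1
import Pool.Agent.helper96.DP.Basic

/-!
# Project dp: conditional probabilities (modules GCA, GCB, GCC, GCD)
-/

namespace DP

open MeasureTheory

/-! ## Measurability -/

theorem GCE_measurableSet {F : Set (V → Bool)} {A : Finset V} (h : Dep F (A : Set V)) :
    MeasurableSet F := by
  have h1 : F = A.restrict ⁻¹' (A.restrict '' F) := by
    ext b
    constructor
    · intro hb
      exact ⟨b, hb, rfl⟩
    · rintro ⟨b', hb', he⟩
      refine (h b' b ?_).1 hb'
      intro v hv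
      exact congrFun he ⟨v, hv⟩
  rw [h1]
  exact (Finset.measurable_restrict A) (Set.toFinite _).measurableSet

theorem GCE_loc_measurableSet {F : Set (V → Bool)} {A : Set V} (h : Loc F A) :
    MeasurableSet F := by
  obtain ⟨Λ, -, hd⟩ := h
  exact GCE_measurableSet hd

instance GCE_P1_prob : IsProbabilityMeasure P1 := by unfold P1; infer_instance

instance GCE_PP_prob (ρ : V → ℝ) : IsProbabilityMeasure (PP ρ) := by unfold PP; infer_instance

theorem GCE_measurable_glue (L : Finset V) :
    Measurable (fun p : (V → Bool) × (V → Bool) => glue L p.1 p.2) := by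
  rw [measurable_pi_iff]
  intro v
  unfold glue
  split_ifs
  · exact (measurable_pi_apply v).comp measurable_fst
  · exact (measurable_pi_apply v).comp measurable_snd

theorem GCE_glue_mp (L : Finset V) :
    MeasurePreserving (fun p : (V → Bool) × (V → Bool) => glue L p.1 p.2) (P1.prod P1) P1 := by
  refine ⟨GCE_measurable_glue L, ?_⟩
  classical
  refine Measure.eq_infinitePi _ fun s t ht => ?_
  rw [Measure.map_apply (GCE_measurable_glue L)
    (MeasurableSet.pi s.countable_toSet fun _ _ => ht _)]
  have h1 : (fun p : (V → Bool) × (V → Bool) => glue L p.1 p.2) ⁻¹' (Set.pi (s : Set V) t) =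
      (Set.pi ((s ∩ L : Finset V) : Set V) t) ×ˢ (Set.pi ((s \ L : Finset V) : Set V) t) := by
    ext p
    simp only [Set.mem_preimage, Set.mem_pi, Set.mem_prod, Finset.mem_coe, Finset.mem_inter,
      Finset.mem_sdiff]
    constructor
    · intro h
      refine ⟨fun v hv => ?_, fun v hv => ?_⟩
      · have := h v hv.1
        simpa [glue, hv.2] using this
      · have := h v hv.1
        simpa [glue, hv.2] using this
    · rintro ⟨h1, h2⟩ v hv
      by_cases hL : v ∈ L
      · simpa [glue, hL] using h1 v ⟨hv, hL⟩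
      · simpa [glue, hL] using h2 v ⟨hv, hL⟩
  rw [h1, Measure.prod_prod, P1, Measure.infinitePi_pi _ fun _ _ => ht _,
    Measure.infinitePi_pi _ fun _ _ => ht _]
  exact Finset.prod_inter_mul_prod_sdiff s L _

theorem GCE_glue_self {L : Finset V} {b b' : V → Bool} {v : V} (hv : v ∈ L) :
    glue L b b' v = b v := by simp [glue, hv]

theorem GCE_cpr_eq (L : Finset V) (F : Set (V → Bool)) (b : V → Bool) :
    cpr L F b = ∫ b', F.indicator (1 : (V → Bool) → ℝ) (glue L b b') ∂P1 := rfl

theorem GCE_glue_congr {L : Finset V} {b b₁ b' : V → Bool} (h : ∀ v ∈ L, b v = b₁ v) :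
    glue L b b' = glue L b₁ b' := by
  funext v
  unfold glue
  split_ifs with hv
  · exact h v hv
  · rfl

theorem GCE_cpr_congr (L : Finset V) (F : Set (V → Bool)) {b b' : V → Bool}
    (h : ∀ v ∈ L, b v = b' v) : cpr L F b = cpr L F b' := by
  rw [GCE_cpr_eq, GCE_cpr_eq]
  congr 1
  funext b''
  rw [GCE_glue_congr h]

/-- the indicator is measurable -/
theorem GCE_ind_measurable {F : Set (V → Bool)} (hF : MeasurableSet F) :
    Measurable (F.indicator (1 : (V → Bool) → ℝ)) := measurable_one.indicator hF

theorem GCE_ind_bound (F : Set (V → Bool)) (b : V → Bool) :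
    0 ≤ F.indicator (1 : (V → Bool) → ℝ) b ∧ F.indicator (1 : (V → Bool) → ℝ) b ≤ 1 := by
  by_cases h : b ∈ F <;> simp [h]

/-- bounded measurable functions are integrable -/
theorem GCE_integrable {Ω : Type*} [MeasurableSpace Ω] {μ : Measure Ω} [IsFiniteMeasure μ]
    {f : Ω → ℝ} (hf : Measurable f) (C : ℝ) (hb : ∀ b, |f b| ≤ C) : Integrable f μ := by
  refine Integrable.of_bound hf.aestronglyMeasurable C ?_
  exact Filter.Eventually.of_forall fun b => by rw [Real.norm_eq_abs]; exact hb b

theorem GCE_ind_abs (F : Set (V → Bool)) (b : V → Bool) :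
    |F.indicator (1 : (V → Bool) → ℝ) b| ≤ 1 := by
  rw [abs_of_nonneg (GCE_ind_bound F b).1]
  exact (GCE_ind_bound F b).2

theorem GCE_cpr_bound (L : Finset V) (F : Set (V → Bool)) (hF : MeasurableSet F) (b : V → Bool) :
    0 ≤ cpr L F b ∧ cpr L F b ≤ 1 := by
  rw [GCE_cpr_eq]
  have hm : Measurable fun b' => glue L b b' := (GCE_measurable_glue L).comp measurable_prodMk_left
  have hint : Integrable (fun b' => F.indicator (1 : (V → Bool) → ℝ) (glue L b b')) P1 :=
    GCE_integrable ((GCE_ind_measurable hF).comp hm) 1 fun b' => GCE_ind_abs F _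
  constructor
  · exact integral_nonneg fun b' => (GCE_ind_bound F _).1
  · calc ∫ b', F.indicator (1 : (V → Bool) → ℝ) (glue L b b') ∂P1 ≤ ∫ _b', (1 : ℝ) ∂P1 := by
          exact integral_mono hint (integrable_const _) fun b' => (GCE_ind_bound F _).2
      _ = 1 := by simp

theorem GCE_cpr_abs (L : Finset V) (F : Set (V → Bool)) (hF : MeasurableSet F) (b : V → Bool) :
    |cpr L F b| ≤ 1 := by
  rw [abs_of_nonneg (GCE_cpr_bound L F hF b).1]
  exact (GCE_cpr_bound L F hF b).2

theorem GCE_cpr_measurable (L : Finset V) (F : Set (V → Bool)) (hF : MeasurableSet F) :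
    Measurable (cpr L F) := by
  have h : StronglyMeasurable fun p : (V → Bool) × (V → Bool) =>
      F.indicator (1 : (V → Bool) → ℝ) (glue L p.1 p.2) :=
    ((GCE_ind_measurable hF).comp (GCE_measurable_glue L)).stronglyMeasurable
  exact (h.integral_prod_right (ν := P1)).measurable

/-- resampling outside `L` -/
theorem GCE_integral_glue (L : Finset V) {f : (V → Bool) → ℝ} (hf : Measurable f) (C : ℝ)
    (hb : ∀ b, |f b| ≤ C) : ∫ b, (∫ b', f (glue L b b') ∂P1) ∂P1 = ∫ b, f b ∂P1 := by
  have h1 : ∫ p, f (glue L p.1 p.2) ∂(P1.prod P1) = ∫ b, f b ∂P1 := by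
    have := (GCE_glue_mp L).map_eq
    rw [← this, integral_map (GCE_measurable_glue L).aemeasurable hf.aestronglyMeasurable, this]
  rw [← h1, integral_prod]
  exact GCE_integrable (hf.comp (GCE_measurable_glue L)) C fun p => hb _

theorem GCE_ind_integral {F : Set (V → Bool)} (hF : MeasurableSet F) :
    ∫ b, F.indicator (1 : (V → Bool) → ℝ) b ∂P1 = Pr F := by
  rw [integral_indicator_one hF]
  rfl

theorem GCA : GCA_stmt := by
  intro L F A hA
  have hF := GCE_loc_measurableSet hA
  refine ⟨GCE_cpr_bound L F hF, ?_, fun b b' h => GCE_cpr_congr L F h⟩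
  have h := GCE_integral_glue L (GCE_ind_measurable hF) 1 (GCE_ind_abs F)
  rw [GCE_ind_integral hF] at h
  exact h

/-- pulling out a function of the coins in `L` -/
theorem GCE_pull (L : Finset V) (F : Set (V → Bool)) (hF : MeasurableSet F)
    {f : (V → Bool) → ℝ} (hf : Measurable f) (hb : ∀ b, |f b| ≤ 1)
    (hL : ∀ b b', (∀ v ∈ L, b v = b' v) → f b = f b') :
    ∫ b, F.indicator (1 : (V → Bool) → ℝ) b * f b ∂P1 = ∫ b, cpr L F b * f b ∂P1 := by
  have h := GCE_integral_glue L (f := fun b => F.indicator (1 : (V → Bool) → ℝ) b * f b)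
    ((GCE_ind_measurable hF).mul hf) 1 (fun b => by
      rw [abs_mul]
      have h1 := GCE_ind_abs F b
      have h2 := hb b
      nlinarith [abs_nonneg (F.indicator (1 : (V → Bool) → ℝ) b), abs_nonneg (f b)])
  rw [← h]
  congr 1
  funext b
  have h2 : ∀ b', f (glue L b b') = f b := fun b' => hL _ _ fun v hv => GCE_glue_self hv
  simp only [h2]
  rw [integral_mul_const]
  rfl

theorem GCB : GCB_stmt := by
  intro L F A hA
  have hF := GCE_loc_measurableSet hA
  rw [GCE_pull L F hF (GCE_cpr_measurable L F hF) (GCE_cpr_abs L F hF)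
    (fun b b' h => GCE_cpr_congr L F h)]
  congr 1
  funext b
  ring

theorem GCC : GCC_stmt := by
  intro L F G A hA hG
  have hF := GCE_loc_measurableSet hA
  have hGm : MeasurableSet G := GCE_measurableSet hG
  set p := Pr F with hp
  set g : (V → Bool) → ℝ := G.indicator (1 : (V → Bool) → ℝ) with hg
  have hgm : Measurable g := GCE_ind_measurable hGm
  have hcm := GCE_cpr_measurable L F hF
  have hc : ∫ b, cpr L F b ∂P1 = p := (GCA L F A hA).2.1
  -- covariance
  have h1 : Pr (F ∩ G) = ∫ b, cpr L F b * g b ∂P1 := by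
    rw [← GCE_pull L F hF hgm (GCE_ind_abs G), ← GCE_ind_integral (hF.inter hGm)]
    · congr 1
      funext b
      rw [hg]
      by_cases hbF : b ∈ F <;> by_cases hbG : b ∈ G <;> simp [hbF, hbG]
    · intro b b' h
      rw [hg]
      by_cases hbG : b ∈ G
      · have := (hG b b' h).1 hbG
        simp [hbG, this]
      · have : b' ∉ G := fun h' => hbG ((hG b b' h).2 h')
        simp [hbG, this]
  have hgG : ∫ b, g b ∂P1 = Pr G := GCE_ind_integral hGm
  have hgg : ∀ b, g b * g b = g b := by
    intro b
    rw [hg]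
    by_cases hbG : b ∈ G <;> simp [hbG]
  have icg : Integrable (fun b => cpr L F b * g b) P1 :=
    GCE_integrable (hcm.mul hgm) 1 fun b => by
      rw [abs_mul]
      have h1 := GCE_ind_abs G b
      have h2 := GCE_cpr_abs L F hF b
      nlinarith [abs_nonneg (G.indicator (1 : (V → Bool) → ℝ) b), abs_nonneg (cpr L F b)]
  have icc : Integrable (fun b => cpr L F b ^ 2) P1 :=
    GCE_integrable (hcm.pow_const 2) 1 fun b => by
      rw [abs_pow]
      have h2 := GCE_cpr_abs L F hF b
      nlinarith [abs_nonneg (cpr L F b)]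
  have ic : Integrable (fun b => cpr L F b) P1 := GCE_integrable hcm 1 (GCE_cpr_abs L F hF)
  have ig : Integrable (fun b => g b) P1 := GCE_integrable hgm 1 (GCE_ind_abs G)
  -- quadratic form
  have key : ∀ t : ℝ, 0 ≤ ((∫ b, cpr L F b ^ 2 ∂P1) - p ^ 2) * (t * t) +
      (2 * (p * Pr G - Pr (F ∩ G))) * t + Pr G := by
    intro t
    have h0 : 0 ≤ ∫ b, (t * (cpr L F b - p) - g b) ^ 2 ∂P1 := integral_nonneg fun b => sq_nonneg _
    have h2 : ∫ b, (t * (cpr L F b - p) - g b) ^ 2 ∂P1 =
        ∫ b, (t ^ 2 * cpr L F b ^ 2 + (-2 * t ^ 2 * p) * cpr L F b + (-2 * t) * (cpr L F b * g b) +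
          (2 * t * p + 1) * g b + t ^ 2 * p ^ 2) ∂P1 := by
      congr 1
      funext b
      have := hgg b
      linear_combination this
    rw [h2, integral_add, integral_add, integral_add, integral_add, integral_const_mul,
      integral_const_mul, integral_const_mul, integral_const_mul, hc, hgG, ← h1] at h0
    · simp only [integral_const, probReal_univ, smul_eq_mul, one_mul] at h0
      nlinarith [h0]
    · exact icc.const_mul _
    · exact ic.const_mul _
    · exact (icc.const_mul _).add (ic.const_mul _)
    · exact icg.const_mul _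
    · exact ((icc.const_mul _).add (ic.const_mul _)).add (icg.const_mul _)
    · exact ig.const_mul _
    · exact (((icc.const_mul _).add (ic.const_mul _)).add (icg.const_mul _)).add (ig.const_mul _)
    · exact integrable_const _
  have hd := discrim_le_zero key
  unfold discrim at hd
  nlinarith [hd]

/-! ## Resampling a block -/

theorem GCE_wt_marg (r : ℝ) (b : Bool) : wt r (b, true) + wt r (b, false) = 1 / 2 := by
  cases b <;> simp [wt] <;> ring

theorem GCE_pairLaw_fst (r : ℝ) :
    (pairLaw r).map Prod.fst = (PMF.uniformOfFintype Bool).toMeasure := by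
  refine Measure.ext_of_singleton fun b => ?_
  rw [Measure.map_apply measurable_fst (measurableSet_singleton b),
    PMF.toMeasure_apply_singleton _ _ (measurableSet_singleton b)]
  unfold pairLaw
  simp only [Measure.coe_finsetSum, Measure.coe_smul, Finset.sum_apply, Pi.smul_apply, smul_eq_mul]
  have hm : MeasurableSet ((Prod.fst : Bool × Bool → Bool) ⁻¹' {b}) :=
    measurable_fst (measurableSet_singleton b)
  simp only [Measure.dirac_apply' _ hm]
  rw [Fintype.sum_prod_type]
  have h1 := GCE_wt_marg r b
  have h2 : ENNReal.ofReal (wt r (b, true)) + ENNReal.ofReal (wt r (b, false)) = 2⁻¹ := by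
    rw [← ENNReal.ofReal_add (wt_nonneg _ _) (wt_nonneg _ _), h1, one_div,
      ENNReal.ofReal_inv_of_pos (by norm_num)]
    norm_num
  cases b <;> simp [PMF.uniformOfFintype_apply, Set.indicator_apply] <;> exact h2

theorem GCE_PP_fst (ρ : V → ℝ) : (PP ρ).map (fun w v => (w v).1) = P1 := by
  unfold PP P1
  rw [Measure.infinitePi_map_pi (f := fun _ => Prod.fst) _ fun _ => measurable_fst]
  congr 1
  funext v
  exact GCE_pairLaw_fst _

theorem GCE_pairLaw_zero : ∀ᵐ a ∂(pairLaw 0), a.1 = a.2 := by
  rw [ae_iff]
  unfold pairLaw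
  simp only [Measure.coe_finsetSum, Measure.coe_smul, Finset.sum_apply, Pi.smul_apply, smul_eq_mul]
  have hm : MeasurableSet {a : Bool × Bool | ¬ a.1 = a.2} := (Set.toFinite _).measurableSet
  simp only [Measure.dirac_apply' _ hm]
  rw [Fintype.sum_prod_type]
  simp [wt, Set.indicator_apply]

theorem GCE_PP_ae (ρ : V → ℝ) (v : V) (h : ρ v = 0) : ∀ᵐ w ∂(PP ρ), (w v).1 = (w v).2 := by
  have h1 := (measurePreserving_eval_infinitePi (fun v => pairLaw (ρ v)) v).quasiMeasurePreserving
  have h2 : ∀ᵐ a ∂(pairLaw (ρ v)), a.1 = a.2 := by rw [h]; exact GCE_pairLaw_zero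
  exact h1.ae h2

/-- pivotality is local -/
theorem GCE_piv_loc {F : Set (V → Bool)} {A : Set V} (B : Set V) (h : Loc F A) :
    Loc (Piv B F) A := by
  classical
  obtain ⟨Λ, hΛ, hd⟩ := h
  refine ⟨Λ, hΛ, ?_⟩
  have key : ∀ b b' : V → Bool, (∀ v ∈ (Λ : Set V), b v = b' v) → b ∈ Piv B F → b' ∈ Piv B F := by
    rintro b b' hbb ⟨b₁, b₂, hoff, h1, h2⟩
    refine ⟨fun v => if v ∈ B then b₁ v else b' v, fun v => if v ∈ B then b₂ v else b' v,
      fun v hv => by simp [hv], ?_, ?_⟩
    · refine (hd b₁ _ fun v hv => ?_).1 h1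
      by_cases hB : v ∈ B
      · simp [hB]
      · simp only [hB, if_false]
        rw [(hoff v hB).1, hbb v hv]
    · intro hcon
      refine h2 ((hd b₂ _ fun v hv => ?_).2 hcon)
      by_cases hB : v ∈ B
      · simp [hB]
      · simp only [hB, if_false]
        rw [(hoff v hB).2, hbb v hv]
  intro b b' hbb
  exact ⟨key b b' hbb, key b' b fun v hv => (hbb v hv).symm⟩

theorem GCE_measurable_fst : Measurable (fun (w : V → Bool × Bool) v => (w v).1) :=
  measurable_pi_iff.2 fun v => measurable_fst.comp (measurable_pi_apply v)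

theorem GCE_measurable_snd : Measurable (fun (w : V → Bool × Bool) v => (w v).2) :=
  measurable_pi_iff.2 fun v => measurable_snd.comp (measurable_pi_apply v)

theorem GCD : GCD_stmt := by
  intro L B F A hA
  classical
  have hF := GCE_loc_measurableSet hA
  have hP := GCE_loc_measurableSet (GCE_piv_loc (B : Set V) hA)
  set ρ : V → ℝ := fun v => if v ∈ B then 1 else 0 with hρ
  have hae : ∀ᵐ w ∂(PP ρ), ∀ v, v ∉ B → (w v).1 = (w v).2 := by
    rw [ae_all_iff]
    intro v
    by_cases hv : v ∈ B
    · exact Filter.Eventually.of_forall fun w h => absurd hv h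
    · filter_upwards [GCE_PP_ae ρ v (by simp [hρ, hv])] with w hw _ using hw
  split_ifs with hd
  · have h0 : ∫ w, |cpr L F (fun v => (w v).1) - cpr L F (fun v => (w v).2)| ∂(PP ρ) =
        ∫ w, (0 : ℝ) ∂(PP ρ) := by
      refine integral_congr_ae ?_
      filter_upwards [hae] with w hw
      rw [GCE_cpr_congr L F (b := fun v => (w v).1) (b' := fun v => (w v).2), sub_self, abs_zero]
      intro v hv
      exact hw v fun hB => (Finset.disjoint_left.1 hd hB) hv
    rw [h0]
    simp
  · have h1 : ∫ w, |cpr L F (fun v => (w v).1) - cpr L F (fun v => (w v).2)| ∂(PP ρ) ≤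
        ∫ w, cpr L (Piv (B : Set V) F) (fun v => (w v).1) ∂(PP ρ) := by
      have hcm := GCE_cpr_measurable L F hF
      have hpm := GCE_cpr_measurable L _ hP
      refine integral_mono_ae ?_ ?_ ?_
      · refine GCE_integrable (((hcm.comp GCE_measurable_fst).sub
          (hcm.comp GCE_measurable_snd)).norm) 1 fun w => ?_
        have h2 := GCE_cpr_bound L F hF (fun v => (w v).1)
        have h3 := GCE_cpr_bound L F hF (fun v => (w v).2)
        rw [abs_abs, abs_le]
        constructor <;> linarith
      · exact GCE_integrable (hpm.comp GCE_measurable_fst) 1 fun w => GCE_cpr_abs L _ hP _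
      · filter_upwards [hae] with w hw
        rw [GCE_cpr_eq, GCE_cpr_eq, GCE_cpr_eq]
        have hm1 : Measurable fun b' => glue L (fun v => (w v).1) b' :=
          (GCE_measurable_glue L).comp measurable_prodMk_left
        have hm2 : Measurable fun b' => glue L (fun v => (w v).2) b' :=
          (GCE_measurable_glue L).comp measurable_prodMk_left
        have i1 : Integrable (fun b' => F.indicator (1 : (V → Bool) → ℝ)
            (glue L (fun v => (w v).1) b')) P1 :=
          GCE_integrable ((GCE_ind_measurable hF).comp hm1) 1 fun b' => GCE_ind_abs F _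
        have i2 : Integrable (fun b' => F.indicator (1 : (V → Bool) → ℝ)
            (glue L (fun v => (w v).2) b')) P1 :=
          GCE_integrable ((GCE_ind_measurable hF).comp hm2) 1 fun b' => GCE_ind_abs F _
        have i3 : Integrable (fun b' => (Piv (B : Set V) F).indicator (1 : (V → Bool) → ℝ)
            (glue L (fun v => (w v).1) b')) P1 :=
          GCE_integrable ((GCE_ind_measurable hP).comp hm1) 1 fun b' => GCE_ind_abs _ _
        rw [← integral_sub i1 i2]
        refine (abs_integral_le_integral_abs).trans (integral_mono (i1.sub i2).abs i3 fun b' => ?_)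
        -- pointwise
        have hagree : ∀ v, v ∉ (B : Set V) →
            glue L (fun v => (w v).1) b' v = glue L (fun v => (w v).2) b' v := by
          intro v hv
          unfold glue
          split_ifs
          · exact hw v hv
          · rfl
        show |F.indicator (1 : (V → Bool) → ℝ) (glue L (fun v => (w v).1) b') -
          F.indicator (1 : (V → Bool) → ℝ) (glue L (fun v => (w v).2) b')| ≤
            (Piv (B : Set V) F).indicator (1 : (V → Bool) → ℝ) (glue L (fun v => (w v).1) b')
        by_cases e1 : glue L (fun v => (w v).1) b' ∈ F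
        · by_cases e2 : glue L (fun v => (w v).2) b' ∈ F
          · have := (GCE_ind_bound (Piv (B : Set V) F) (glue L (fun v => (w v).1) b')).1
            simpa [e1, e2] using this
          · have e3 : glue L (fun v => (w v).1) b' ∈ Piv (B : Set V) F :=
              ⟨_, _, fun v hv => ⟨rfl, (hagree v hv).symm⟩, e1, e2⟩
            simp [e1, e2, e3]
        · by_cases e2 : glue L (fun v => (w v).2) b' ∈ F
          · have e3 : glue L (fun v => (w v).1) b' ∈ Piv (B : Set V) F :=
              ⟨_, _, fun v hv => ⟨(hagree v hv).symm, rfl⟩, e2, e1⟩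
            simp [e1, e2, e3]
          · have := (GCE_ind_bound (Piv (B : Set V) F) (glue L (fun v => (w v).1) b')).1
            simpa [e1, e2] using this
    refine h1.trans (le_of_eq ?_)
    have h2 : ∫ w, cpr L (Piv (B : Set V) F) (fun v => (w v).1) ∂(PP ρ) =
        ∫ b, cpr L (Piv (B : Set V) F) b ∂((PP ρ).map (fun w v => (w v).1)) := by
      rw [integral_map GCE_measurable_fst.aemeasurable
        (GCE_cpr_measurable L _ hP).aestronglyMeasurable]
    rw [h2, GCE_PP_fst]
    exact (GCA L _ A (GCE_piv_loc (B : Set V) hA)).2.1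

end DP
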