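import Pool.Agent.helper96.DP.SpecD

/-!
# Project dp: the bad event is unlikely (module DB)
-/

namespace DP

open MeasureTheory

instance DB_instP1 : IsProbabilityMeasure P1 := by
  unfold P1
  infer_instance

theorem DB_nxt_ne (x : V) (n : ℕ) (a b : V) (h : nxt x n a b) : a ≠ b := by
  rintro rfl
  rcases h.2.2 with h | h
  · omega
  · omega

theorem DB_nb_ne (x : V) (n : ℕ) (a b : V) (h : nb x n a b) : a ≠ b := by
  rcases h with h | h
  · exact DB_nxt_ne x n a b h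
  · exact (DB_nxt_ne x n b a h).symm

theorem DB_mem_bdF (x : V) (n : ℕ) (v : V) : v ∈ bdF x n ↔ v ∈ bd x n := by
  unfold bdF bd
  simp only [Finset.mem_filter, Finset.mem_product, Finset.mem_Icc, Set.mem_ofPred_eq]
  constructor
  · exact fun h => h.2
  · intro h
    refine ⟨?_, h⟩
    unfold sd at h
    omega

theorem DB_Pr_nonneg (F : Set (V → Bool)) : 0 ≤ Pr F := measureReal_nonneg

theorem DB_Pr_mono {F G : Set (V → Bool)} (h : F ⊆ G) : Pr F ≤ Pr G :=
  measureReal_mono h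

theorem DB_Pr_biUnion {ι : Type*} (s : Finset ι) (F : ι → Set (V → Bool)) :
    Pr (⋃ i ∈ s, F i) ≤ ∑ i ∈ s, Pr (F i) :=
  measureReal_biUnion_finset_le s F

open Classical in
theorem DB (h1 : D1_stmt) (h2 : D2_stmt) (h3 : C2_stmt) : DB_stmt := by
  obtain ⟨C₁, hC₁, h1⟩ := h1
  obtain ⟨C₂, hC₂, a₂, ha₂, h3⟩ := h3
  refine ⟨2 * C₁ * C₂, by positivity, a₂, ha₂, ?_⟩
  intro s x n r R hx hr hrR hRn
  have hR : 1 ≤ R := le_trans hr hrR
  have hD1 := h1 s x n R hx hR hRn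
  -- union bound
  have hsub : (Ev fun c => Bad s c x n r R) ⊆
      ⋃ b ∈ bdF x n, ⋃ a ∈ (bdF x n).filter (fun a => nb x n a b), ⋃ k ∈ (Finset.univ : Finset Bool),
        Ev fun c => Third c k (HS s x n ∩ box b R) r R a b := by
    intro w hw
    obtain ⟨a, b, k, hab, ht⟩ := hw
    have hmem : a ∈ bdF x n ∧ b ∈ bdF x n := by
      rcases hab with h | h
      · exact ⟨(DB_mem_bdF x n a).2 h.1, (DB_mem_bdF x n b).2 h.2.1⟩
      · exact ⟨(DB_mem_bdF x n a).2 h.2.1, (DB_mem_bdF x n b).2 h.1⟩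
    simp only [Set.mem_iUnion]
    exact ⟨b, hmem.2, a, Finset.mem_filter.2 ⟨hmem.1, hab⟩, k, Finset.mem_univ _, ht⟩
  have hthird : ∀ b ∈ bdF x n, ∀ a ∈ (bdF x n).filter (fun a => nb x n a b), ∀ k : Bool,
      Pr (Ev fun c => Third c k (HS s x n ∩ box b R) r R a b) ≤
        Pr (Ev fun c => TwoEnd c (HS s x n ∩ box b R) R a b) * (C₂ * ((r : ℝ) / R) ^ a₂) := by
    intro b _ a ha k
    have hab := DB_nb_ne x n a b (Finset.mem_filter.1 ha).2
    refine le_trans (h2 k (HS s x n ∩ box b R) r R a b Set.inter_subset_right hab hrR) ?_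
    exact mul_le_mul_of_nonneg_left (h3 k b r R hr hrR) (DB_Pr_nonneg _)
  calc Pr (Ev fun c => Bad s c x n r R)
      ≤ ∑ b ∈ bdF x n, ∑ a ∈ (bdF x n).filter (fun a => nb x n a b), ∑ k ∈ (Finset.univ : Finset Bool),
          Pr (Ev fun c => Third c k (HS s x n ∩ box b R) r R a b) := by
        refine le_trans (DB_Pr_mono hsub) (le_trans (DB_Pr_biUnion _ _) ?_)
        refine Finset.sum_le_sum fun b _ => le_trans (DB_Pr_biUnion _ _) ?_
        exact Finset.sum_le_sum fun a _ => DB_Pr_biUnion _ _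
    _ ≤ ∑ b ∈ bdF x n, ∑ a ∈ (bdF x n).filter (fun a => nb x n a b), ∑ k ∈ (Finset.univ : Finset Bool),
          Pr (Ev fun c => TwoEnd c (HS s x n ∩ box b R) R a b) * (C₂ * ((r : ℝ) / R) ^ a₂) :=
        Finset.sum_le_sum fun b hb => Finset.sum_le_sum fun a ha =>
          Finset.sum_le_sum fun k _ => hthird b hb a ha k
    _ = 2 * (∑ b ∈ bdF x n, ∑ a ∈ (bdF x n).filter (fun a => nb x n a b),
          Pr (Ev fun c => TwoEnd c (HS s x n ∩ box b R) R a b)) * (C₂ * ((r : ℝ) / R) ^ a₂) := by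
        simp only [Finset.sum_const, Finset.card_univ, Fintype.card_bool, nsmul_eq_mul,
          Finset.mul_sum, Finset.sum_mul]
        refine Finset.sum_congr rfl fun b _ => Finset.sum_congr rfl fun a _ => ?_
        push_cast
        ring
    _ ≤ 2 * (C₁ * ((n : ℝ) / R)) * (C₂ * ((r : ℝ) / R) ^ a₂) := by
        have hpos : 0 ≤ C₂ * ((r : ℝ) / R) ^ a₂ := by positivity
        exact mul_le_mul_of_nonneg_right (by linarith) hpos
    _ = 2 * C₁ * C₂ * ((n : ℝ) / R) * ((r : ℝ) / R) ^ a₂ := by ring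

end DP
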