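import Pool.Agent.helper95.DP.SpecH
import Pool.Agent.helper96.DP.Basic

/-!
# Project dp: long arms give infinite clusters (module HK1)
-/

namespace DP

theorem HK1_aux (c : V → Bool) (k : Bool) (m : ℕ) (h : ∀ N, m < N → arm c k 0 m N) : Perc k c := by
  by_contra hcon
  have hfin : ∀ u, {v | Conn c k Set.univ u v}.Finite := by
    intro u
    by_contra h1
    exact hcon ⟨u, h1⟩
  have hbd : (bd 0 m).Finite := (box_finite 0 m).subset fun v hv => le_of_eq hv
  have hU : (⋃ u ∈ bd 0 m, {v | Conn c k Set.univ u v}).Finite := hbd.biUnion fun u _ => hfin u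
  obtain ⟨M, hM⟩ : ∃ M : ℕ, ∀ v ∈ ⋃ u ∈ bd 0 m, {v | Conn c k Set.univ u v}, sd 0 v ≤ M := by
    obtain ⟨M, hM⟩ := (hU.image (sd 0)).bddAbove
    exact ⟨M, fun v hv => hM ⟨v, hv, rfl⟩⟩
  obtain ⟨u, hu, v, hv, huv⟩ := h (max m M + 1) (by have := le_max_left m M; omega)
  have h1 := hM v (Set.mem_biUnion hu (Conn.mono (Set.subset_univ _) huv))
  have h2 : sd 0 v = max m M + 1 := hv
  have h3 := le_max_right m M
  omega

theorem HK1 : HK1_stmt := by
  intro c m h
  exact ⟨HK1_aux c true m fun N hN => (h N hN).1, HK1_aux c false m fun N hN => (h N hN).2⟩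

end DP
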