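import Pool.Agent.helper96.DP.SpecD

/-!
# Project dp: the rerouting lemma for paths (module ML)
-/

namespace DP

/-- The end of a path starting at a point of it. -/
theorem ML_suffix (W : Set V) : ∀ (l : List V) (w z a : V), IsPath W l w z → a ∈ l →
    ∃ l' : List V, IsPath W l' a z ∧ ∀ v ∈ l', v ∈ l := by
  intro l
  induction l with
  | nil =>
    intro w z a h ha
    simp at ha
  | cons b t ih =>
    intro w z a h ha
    by_cases hab : a = b
    · subst hab
      refine ⟨a :: t, ⟨by simp, h.2.1, h.2.2.1, h.2.2.2⟩, fun v hv => hv⟩
    · have hat : a ∈ t := by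
        rcases List.mem_cons.1 ha with h1 | h1
        · exact absurd h1 hab
        · exact h1
      obtain ⟨-, h2, h3, h4⟩ := h
      cases t with
      | nil => simp at hat
      | cons b' t' =>
        have hp : IsPath W (b' :: t') b' z := by
          refine ⟨by simp, ?_, ?_, fun v hv => h4 v (List.mem_cons_of_mem _ hv)⟩
          · rw [List.getLast?_cons_cons] at h2
            exact h2
          · exact h3.tail
        obtain ⟨l', hl', hm⟩ := ih b' z a hp hat
        exact ⟨l', hl', fun v hv => List.mem_cons_of_mem _ (hm v hv)⟩

theorem ML : ML_stmt := by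
  intro W a z w₁ z₁ w₂ z₂ l₁ l₂ hc h₁ h₂ hd
  obtain ⟨haW, hr⟩ := hc
  induction hr using Relation.ReflTransGen.head_induction_on with
  | refl =>
    by_cases hz1 : z ∈ l₁
    · obtain ⟨l, hl, hm⟩ := ML_suffix W l₁ w₁ z₁ z h₁ hz1
      exact ⟨l, z₁, hl, Or.inr (Or.inl rfl), Or.inr fun v hv hv2 => hd (hm v hv) hv2⟩
    · refine ⟨[z], z, ⟨by simp, by simp, by simp, ?_⟩, Or.inl rfl, Or.inl ?_⟩
      · intro v hv
        rw [List.mem_singleton.1 hv]
        exact haW
      · intro v hv hv1
        rw [List.mem_singleton.1 hv] at hv1
        exact hz1 hv1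
  | head hab hbz ih =>
    rename_i a b
    by_cases ha1 : a ∈ l₁
    · obtain ⟨l, hl, hm⟩ := ML_suffix W l₁ w₁ z₁ a h₁ ha1
      exact ⟨l, z₁, hl, Or.inr (Or.inl rfl), Or.inr fun v hv hv2 => hd (hm v hv) hv2⟩
    · by_cases ha2 : a ∈ l₂
      · obtain ⟨l, hl, hm⟩ := ML_suffix W l₂ w₂ z₂ a h₂ ha2
        exact ⟨l, z₂, hl, Or.inr (Or.inr rfl), Or.inl fun v hv hv2 => hd hv2 (hm v hv)⟩
      · obtain ⟨l, z', hl, hz', hdl⟩ := ih hab.2
        refine ⟨a :: l, z', ⟨by simp, ?_, ?_, ?_⟩, hz', ?_⟩
        · obtain ⟨h1, h2, -, -⟩ := hl
          cases l with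
          | nil => simp at h1
          | cons c t =>
            rw [List.getLast?_cons_cons]
            exact h2
        · obtain ⟨h1, -, h3, -⟩ := hl
          cases l with
          | nil => simp at h1
          | cons c t =>
            have hcb : c = b := by simpa using h1
            subst hcb
            exact List.isChain_cons_cons.2 ⟨hab.1, h3⟩
        · intro v hv
          rcases List.mem_cons.1 hv with h | h
          · rw [h]
            exact haW
          · exact hl.2.2.2 v h
        · rcases hdl with hdl | hdl
          · left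
            intro v hv hv1
            rcases List.mem_cons.1 hv with h | h
            · rw [h] at hv1
              exact ha1 hv1
            · exact hdl h hv1
          · right
            intro v hv hv1
            rcases List.mem_cons.1 hv with h | h
            · rw [h] at hv1
              exact ha2 hv1
            · exact hdl h hv1

end DP
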