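import Pool.Agent.helper96.DP.SpecE
import Pool.Agent.helper96.DP.Basic

/-!
# Project dp: separation of arms, inner side (module SEPI)
-/

namespace DP

open MeasureTheory

theorem SEPI_Q_nonneg (ρ : V → ℝ) (F G : Set (V → Bool)) : 0 ≤ Q ρ F G := measureReal_nonneg

theorem SEPI_Q_le_one (ρ : V → ℝ) (F G : Set (V → Bool)) : Q ρ F G ≤ 1 := by
  have : IsProbabilityMeasure (PP ρ) := by unfold PP; infer_instance
  exact measureReal_le_one

theorem SEPI_ok_mono {x : V} {r r' : ℕ} {D : Dat} (h : r' ≤ r) (hD : D.ok false x r) :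
    D.ok false x r' := by
  simp only [Dat.ok, Bool.false_eq_true, if_false] at hD ⊢
  obtain ⟨h1, h2, h3⟩ := hD
  refine ⟨fun i v hv => le_trans h (h1 i hv), fun k v hv => le_trans h (h2 k hv), h3⟩

theorem SEPI_extra (s : Bool) (x : V) (r : ℕ) : Extra s x r Set.univ Set.univ := by
  refine ⟨Mon.univ _, Mon.univ _, ?_⟩
  split_ifs
  · exact ⟨Loc.univ _, Loc.univ _⟩
  · exact ⟨Loc.univ _, Loc.univ _⟩

theorem SEPI_fam_congr {c c' : V → Bool} {j : ℕ} {s : Bool} {x : V} {n : ℕ} {D : Dat}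
    (h : ∀ k, ∀ v ∈ HS s x n \ D.N k, c v = c' v) (hF : Fam c j s x n D) : Fam c' j s x n D := by
  obtain ⟨u, hu, h1⟩ := hF
  refine ⟨u, hu, fun i hi => ?_⟩
  obtain ⟨h2, p, hp, h3⟩ := h1 i hi
  exact ⟨h2, p, hp, (Conn.congr (h _)).1 h3⟩

theorem SEPI_loc {j : ℕ} {x : V} {n r : ℕ} {D : Dat} (hD : D.ok false x r) :
    Loc (Ev fun c => Fam c j false x n D) {v | n ≤ sd x v} := by
  simp only [Dat.ok, Bool.false_eq_true, if_false] at hD
  obtain ⟨-, -, M, hM⟩ := hD
  have hsub : ∀ k, HS false x n \ D.N k ⊆ {v | n ≤ sd x v ∧ sd x v ≤ M} := by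
    rintro k v ⟨h1, h2⟩
    have h1' : n ≤ sd x v := by simpa [HS] using h1
    refine ⟨h1', ?_⟩
    by_contra h3
    exact h2 (hM k (by simpa using h3))
  refine Loc.mono (A := {v | n ≤ sd x v ∧ sd x v ≤ M}) (Loc.ev ?_ ?_) (fun v hv => hv.1)
  · exact (box_finite x M).subset fun v hv => hv.2
  · intro c c' h
    exact ⟨SEPI_fam_congr fun k v hv => h v (hsub k hv),
      SEPI_fam_congr fun k v hv => (h v (hsub k hv)).symm⟩

theorem SEPI (h3 : SE3_stmt) (h1 : SE1_stmt) : SEPI_stmt := by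
  intro b₀ hb₀
  obtain ⟨c₁, hc₁, iA, hA⟩ := h1
  obtain ⟨C₃, hC₃, iB, hB⟩ := h3 (c₁ / 2) (by positivity)
  refine ⟨max (1 / b₀) (2 * C₃), lt_max_of_lt_left (by positivity), max iA iB, ?_⟩
  intro j ρ x D i₀ hj hρ hx hi₀ hD hmono hbase
  set C : ℝ := max (1 / b₀) (2 * C₃) with hC
  have hC1 : 1 / b₀ ≤ C := le_max_left _ _
  have hC2 : 2 * C₃ ≤ C := le_max_right _ _
  have hCpos : 0 < C := lt_of_lt_of_le (by positivity) hC1
  -- downward induction
  have key : ∀ k : ℕ, ∀ i : ℕ, max iA iB + 1 ≤ i → i + k = i₀ →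
      Q ρ (Ev fun c => Fam c j false x (2 ^ i) D) (Ev fun c => Fam c j false x (2 ^ i) D) ≤
        C * Q ρ (Ev fun c => Std c j false x (2 ^ (i - 1)) D)
          (Ev fun c => Std c j false x (2 ^ (i - 1)) D) := by
    intro k
    induction k with
    | zero =>
      intro i hi hik
      have hii : i = i₀ := by omega
      subst hii
      refine (SEPI_Q_le_one ρ _ _).trans ?_
      calc (1 : ℝ) = 1 / b₀ * b₀ := by field_simp
        _ ≤ C * Q ρ (Ev fun c => Std c j false x (2 ^ (i - 1)) D)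
          (Ev fun c => Std c j false x (2 ^ (i - 1)) D) :=
          mul_le_mul hC1 hbase hb₀.le hCpos.le
    | succ k ih =>
      intro i hi hik
      have hlt : i < i₀ := by omega
      have hiA : iA ≤ i := le_trans (le_max_left iA iB) (by omega)
      have hiB : iB ≤ i := le_trans (le_max_right iA iB) (by omega)
      have hok : D.ok false x (if (false : Bool) = true then 2 ^ (i - 1) else 2 ^ (i + 1)) := by
        rw [if_neg (by simp)]
        exact SEPI_ok_mono (Nat.pow_le_pow_right (by norm_num) (by omega)) hD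
      have hnx : nx false (2 ^ i) = 2 ^ (i - 1) := by
        unfold nx
        rw [if_neg (by simp)]
        obtain ⟨i', rfl⟩ : ∃ i', i = i' + 1 := ⟨i - 1, by omega⟩
        rw [pow_succ, Nat.add_sub_cancel]
        omega
      have e3 := hB j false ρ x D Set.univ Set.univ (Ev fun c => Fam c j false x (2 ^ (i + 1)) D) i
        hj hρ hx hiB hok (SEPI_extra _ _ _) (by
          rw [if_neg (by simp)]
          exact SEPI_loc hD) (by
          rintro b ⟨-, hb⟩
          exact hmono (col b) i (by omega) hlt hb)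
      have e1 := hA j false ρ x D Set.univ Set.univ i hj hρ hx hiA hok (SEPI_extra _ _ _)
      rw [hnx] at e3 e1
      simp only [Set.univ_inter] at e3 e1
      have e2 := ih (i + 1) (by omega) (by omega)
      rw [Nat.add_sub_cancel] at e2
      set f := Q ρ (Ev fun c => Fam c j false x (2 ^ i) D) (Ev fun c => Fam c j false x (2 ^ i) D)
      set f' := Q ρ (Ev fun c => Fam c j false x (2 ^ (i + 1)) D)
        (Ev fun c => Fam c j false x (2 ^ (i + 1)) D)
      set g := Q ρ (Ev fun c => Std c j false x (2 ^ (i - 1)) D)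
        (Ev fun c => Std c j false x (2 ^ (i - 1)) D)
      set g' := Q ρ (Ev fun c => Std c j false x (2 ^ i) D)
        (Ev fun c => Std c j false x (2 ^ i) D)
      have hg : 0 ≤ g := SEPI_Q_nonneg _ _ _
      calc f ≤ C₃ * g + c₁ / 2 * f' := e3
        _ ≤ C₃ * g + c₁ / 2 * (C * g') := by gcongr
        _ = C₃ * g + C / 2 * (c₁ * g') := by ring
        _ ≤ C₃ * g + C / 2 * g := by gcongr
        _ ≤ C / 2 * g + C / 2 * g := by
            have : C₃ ≤ C / 2 := by linarith
            gcongr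
        _ = C * g := by ring
  intro i hi hi'
  exact key (i₀ - i) i hi (by omega)

end DP
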